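import Mathlib
set_option autoImplicit false

/-!
# Few `c` for which `x ^ 2 + c` has a rational cycle of length at least three

Outline.  Let `x i` be a rational cycle of `x ^ 2 + c` of length `n ≥ 3`.

* All `x i` have the same denominator `d` and `c` has denominator `d ^ 2` (`Cyc.den_eq`); the
  numbers `d (x i + x (i + k))` are integers composed of primes dividing `d`, and their product over
  a period is `± d ^ n` (`Cyc.nat_sum`, `Cyc.sum_prod`).
* Hence for some `i` the three integers for the pairs `(i, i + 1)`, `(i + 1, i + 2)`, `(i, i + 2)`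
  have a product of at most `d ^ 3`; they determine `c` (`Cyc.mem_cand`), and there are `O(d ^ ε)`
  integers up to `d ^ 3` composed of primes dividing `d` (`sup3_card`).
* `Cyc.size`: if `|c|` is at least `9` and at least the denominator of `c`, then the signs of the
  `x i` have period two, because a non-zero `x i + x j` is at least `1 / d`; this is impossible.
* `per_lower'`: there are at least `H / 28` numbers `c` of height at most `H` with a rational fixed
  point.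
-/

namespace Pool.Agent.Results.MP_7564fc_nt.FewLongCycles

section

/-- strictly increasing along a periodic sequence is impossible -/
theorem per_lt {α : Type*} [Preorder α] (f : ℕ → α) {n : ℕ} (hn : 0 < n)
    (hper : ∀ i, f (i + n) = f i) (k : ℕ) (h : ∀ i, k ≤ i → f i < f (i + 1)) : False := by
  have h1 : ∀ j, 0 < j → f k < f (k + j) := by
    intro j hj
    induction j with
    | zero => omega
    | succ j ih =>
      rcases Nat.eq_zero_or_pos j with h0 | h0
      · subst h0; exact h k le_rfl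
      · exact lt_trans (ih h0) (h (k + j) (by omega))
  have := h1 n hn
  rw [hper] at this
  exact lt_irrefl _ this

/-- a cycle of `x ^ 2 + c` of length at least three -/
structure Cyc (c : ℚ) (x : ℕ → ℚ) (n : ℕ) : Prop where
  hn : 3 ≤ n
  step : ∀ i, x (i + 1) = x i ^ 2 + c
  per : ∀ i, x (i + n) = x i
  ne1 : ∀ i, x i ≠ x (i + 1)
  ne2 : ∀ i, x i ≠ x (i + 2)

variable {c : ℚ} {x : ℕ → ℚ} {n : ℕ}

theorem norm_add_eq {p : ℕ} [Fact p.Prime] {a b : ℚ} (h : padicNorm p b < padicNorm p a) :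
    padicNorm p (a + b) = padicNorm p a := by
  rw [padicNorm.add_eq_max_of_ne (ne_of_gt h)]
  exact max_eq_left h.le

/-- the local sizes along a cycle -/
theorem Cyc.local (C : Cyc c x n) (p : ℕ) [Fact p.Prime] (i : ℕ) :
    (max 1 (padicNorm p (x i))) ^ 2 = max 1 (padicNorm p c) := by
  have hn : 0 < n := by have := C.hn; omega
  have hsq : ∀ j, padicNorm p (x j ^ 2) = padicNorm p (x j) ^ 2 := by
    intro j
    rw [sq, padicNorm.mul, sq]
  have hnn : ∀ j, 0 ≤ padicNorm p (x j) := fun j => padicNorm.nonneg _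
  have hperN : ∀ j, padicNorm p (x (j + n)) = padicNorm p (x j) := fun j => by rw [C.per]
  -- no escape
  have hesc : ∀ j, 1 < padicNorm p (x j) → padicNorm p (x j) ^ 2 ≤ padicNorm p c := by
    intro j h1
    by_contra hcon
    push Not at hcon
    have key : ∀ m, 1 < padicNorm p (x (j + m)) ∧
        padicNorm p c < padicNorm p (x (j + m)) ^ 2 ∧
        padicNorm p (x (j + m + 1)) = padicNorm p (x (j + m)) ^ 2 := by
      intro m
      induction m with
      | zero =>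
        refine ⟨h1, hcon, ?_⟩
        rw [C.step, ← hsq]
        exact norm_add_eq (by rw [hsq]; exact hcon)
      | succ m ih =>
        obtain ⟨a1, a2, a3⟩ := ih
        have b1 : 1 < padicNorm p (x (j + (m + 1))) := by
          rw [← Nat.add_assoc, a3]; nlinarith
        have b2 : padicNorm p c < padicNorm p (x (j + (m + 1))) ^ 2 := by
          rw [← Nat.add_assoc, a3]
          have h5 : 1 < padicNorm p (x (j + m)) ^ 2 := by nlinarith
          nlinarith
        refine ⟨b1, b2, ?_⟩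
        rw [C.step, ← hsq]
        exact norm_add_eq (by rw [hsq]; exact b2)
    apply per_lt (fun m => padicNorm p (x m)) hn hperN j
    intro m hm
    obtain ⟨k, rfl⟩ := Nat.exists_eq_add_of_le hm
    obtain ⟨a1, a2, a3⟩ := key k
    show padicNorm p (x (j + k)) < padicNorm p (x (j + k + 1))
    rw [a3]
    nlinarith
  rcases le_or_gt (padicNorm p c) 1 with hc | hc
  · have h1 : padicNorm p (x i) ≤ 1 := by
      by_contra hcon
      push Not at hcon
      have := hesc i hcon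
      nlinarith
    rw [max_eq_left h1, max_eq_left hc, one_pow]
  · have heq : ∀ j, padicNorm p (x j) ^ 2 = padicNorm p c := by
      intro j
      by_contra hne
      rcases lt_or_gt_of_ne hne with h | h
      · have h2 : padicNorm p (x (j + 1)) = padicNorm p c := by
          rw [C.step, add_comm]
          exact norm_add_eq (by rw [hsq]; exact h)
        have h3 := hesc (j + 1) (by rw [h2]; exact hc)
        rw [h2] at h3
        nlinarith
      · have h1 : 1 < padicNorm p (x j) := by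
          have := hnn j
          nlinarith
        exact absurd (hesc j h1) (not_le.mpr h)
    have h1 := heq i
    have h2 : 1 < padicNorm p (x i) := by
      have := hnn i
      nlinarith
    rw [max_eq_right h2.le, max_eq_right hc.le, h1]

theorem norm_den {p : ℕ} [hp : Fact p.Prime] (q : ℚ) :
    max 1 (padicNorm p q) = (p : ℚ) ^ (padicValNat p q.den) := by
  have hp1 : (1 : ℚ) < p := by exact_mod_cast hp.out.one_lt
  by_cases hq : q = 0
  · subst hq
    simp
  · rw [padicNorm.eq_zpow_of_nonzero hq, padicValRat]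
    by_cases hd : p ∣ q.den
    · have h3 : ¬ p ∣ q.num.natAbs := by
        intro h2
        have h4 : p ∣ 1 := by
          rw [← q.reduced]; exact Nat.dvd_gcd h2 hd
        exact hp.out.one_lt.ne' (Nat.dvd_one.mp h4)
      have h4 : padicValInt p q.num = 0 := by
        rw [padicValInt]; exact padicValNat.eq_zero_of_not_dvd h3
      rw [h4]
      simp only [Nat.cast_zero, zero_sub, neg_neg, zpow_natCast]
      exact max_eq_right (one_le_pow₀ hp1.le)
    · rw [padicValNat.eq_zero_of_not_dvd hd, pow_zero]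
      apply max_eq_left
      simp only [Nat.cast_zero, sub_zero]
      exact zpow_le_one_of_nonpos₀ hp1.le (by simp)

theorem pow_inj {p : ℕ} (hp : p.Prime) {a b : ℕ} (h : (p : ℚ) ^ a = (p : ℚ) ^ b) : a = b := by
  have h1 : p ^ a = p ^ b := by exact_mod_cast h
  exact Nat.pow_right_injective hp.two_le h1

/-- the denominators -/
theorem Cyc.den_eq (C : Cyc c x n) (i : ℕ) : c.den = (x i).den ^ 2 := by
  apply Nat.eq_of_factorization_eq c.den_ne_zero (pow_ne_zero 2 (x i).den_ne_zero)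
  intro p
  by_cases hp : p.Prime
  · have : Fact p.Prime := ⟨hp⟩
    rw [Nat.factorization_def _ hp, Nat.factorization_def _ hp, padicValNat.pow]
    apply pow_inj hp
    rw [← norm_den, ← C.local p i, norm_den, ← pow_mul, mul_comm]
  · rw [Nat.factorization_eq_zero_of_not_prime _ hp, Nat.factorization_eq_zero_of_not_prime _ hp]

theorem Cyc.den_const (C : Cyc c x n) (i j : ℕ) : (x i).den = (x j).den := by
  have h1 := C.den_eq i
  have h2 := C.den_eq j
  rw [h1] at h2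
  exact Nat.pow_left_injective (n := 2) (by norm_num) h2

/-- sums of two points of a cycle -/
theorem Cyc.sum_norm (C : Cyc c x n) {k : ℕ} (hk : ∀ i, x i ≠ x (i + k)) (p : ℕ) [Fact p.Prime]
    (i : ℕ) : padicNorm p (x i + x (i + k)) ≤ (p : ℚ) ^ (padicValNat p (x 0).den) ∧
      (¬ p ∣ (x 0).den → padicNorm p (x i + x (i + k)) = 1) := by
  have hle : ∀ j, padicNorm p (x j + x (j + k)) ≤ (p : ℚ) ^ (padicValNat p (x 0).den) := by
    intro j
    have h1 := padicNorm.nonarchimedean (p := p) (q := x j) (r := x (j + k))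
    have h2 : padicNorm p (x j) ≤ (p : ℚ) ^ (padicValNat p (x 0).den) := by
      rw [C.den_const 0 j, ← norm_den]; exact le_max_right _ _
    have h3 : padicNorm p (x (j + k)) ≤ (p : ℚ) ^ (padicValNat p (x 0).den) := by
      rw [C.den_const 0 (j + k), ← norm_den]; exact le_max_right _ _
    exact le_trans h1 (max_le h2 h3)
  refine ⟨hle i, ?_⟩
  intro hd
  have hn : 0 < n := by have := C.hn; omega
  have hle1 : ∀ j, padicNorm p (x j + x (j + k)) ≤ 1 := by
    intro j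
    have := hle j
    rw [padicValNat.eq_zero_of_not_dvd hd, pow_zero] at this
    exact this
  have hδ : ∀ j, x (j + 1) - x (j + 1 + k) = (x j - x (j + k)) * (x j + x (j + k)) := by
    intro j
    rw [C.step, show j + 1 + k = j + k + 1 by ring, C.step]
    ring
  have hδN : ∀ j, padicNorm p (x (j + 1) - x (j + 1 + k)) =
      padicNorm p (x j - x (j + k)) * padicNorm p (x j + x (j + k)) := by
    intro j
    rw [hδ, padicNorm.mul]
  have hpos : ∀ j, 0 < padicNorm p (x j - x (j + k)) := by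
    intro j
    have h1 : padicNorm p (x j - x (j + k)) ≠ 0 := padicNorm.nonzero (sub_ne_zero.mpr (hk j))
    exact lt_of_le_of_ne (padicNorm.nonneg _) (Ne.symm h1)
  have hanti : ∀ j, padicNorm p (x (j + 1) - x (j + 1 + k)) ≤ padicNorm p (x j - x (j + k)) := by
    intro j
    rw [hδN]
    have := hpos j
    have := hle1 j
    nlinarith
  have hmono : ∀ m j, padicNorm p (x (j + m) - x (j + m + k)) ≤ padicNorm p (x j - x (j + k)) := by
    intro m j
    induction m with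
    | zero => exact le_refl _
    | succ m ih => exact le_trans (hanti (j + m)) ih
  have heq : padicNorm p (x (i + 1) - x (i + 1 + k)) = padicNorm p (x i - x (i + k)) := by
    apply le_antisymm (hanti i)
    have h1 := hmono (n - 1) (i + 1)
    have h2 : i + 1 + (n - 1) = i + n := by omega
    rw [h2, C.per, show i + n + k = i + k + n by ring, C.per] at h1
    exact h1
  rw [hδN] at heq
  have := hpos i
  have h3 : padicNorm p (x i - x (i + k)) * (padicNorm p (x i + x (i + k)) - 1) = 0 := by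
    linear_combination heq
  rcases mul_eq_zero.mp h3 with h4 | h4
  · exact absurd h4 this.ne'
  · linarith

/-- the product of the sums is one -/
theorem Cyc.sum_prod (C : Cyc c x n) {k : ℕ} (hk : ∀ i, x i ≠ x (i + k)) :
    ∏ i ∈ Finset.range n, (x i + x (i + k)) = 1 := by
  have hδ : ∀ m, x m - x (m + k) = (x 0 - x (0 + k)) * ∏ i ∈ Finset.range m, (x i + x (i + k)) := by
    intro m
    induction m with
    | zero => simp
    | succ m ih =>
      rw [Finset.prod_range_succ, ← mul_assoc, ← ih, C.step,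
        show m + 1 + k = m + k + 1 by ring, C.step]
      ring
  have h1 := hδ n
  have h2 := C.per 0
  have h3 := C.per k
  rw [Nat.zero_add] at h2
  rw [show n + k = k + n by ring, h2, h3, Nat.zero_add] at h1
  have h4 : x 0 - x k ≠ 0 := by
    have := hk 0
    rw [Nat.zero_add] at this
    exact sub_ne_zero.mpr this
  have h5 : (x 0 - x k) * (∏ i ∈ Finset.range n, (x i + x (i + k)) - 1) = 0 := by
    linear_combination - h1
  rcases mul_eq_zero.mp h5 with h6 | h6
  · exact absurd h6 h4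
  · linarith

end

section

/-- Rankin's bound for integers composed of given primes -/
theorem rankin {ε : ℝ} (hε : 0 < ε) (S : Finset ℕ) (hS : ∀ p ∈ S, p.Prime) {X : ℝ} (hX : 0 < X)
    (T : Finset ℕ) (hT : ∀ m ∈ T, m ≠ 0 ∧ (m : ℝ) ≤ X ∧ ∀ p, p.Prime → p ∣ m → p ∈ S) :
    (T.card : ℝ) ≤ X ^ ε * ∏ p ∈ S, (1 - (p : ℝ) ^ (-ε))⁻¹ := by
  let g : ℕ →* ℝ :=
    { toFun := fun m => (m : ℝ) ^ (-ε)
      map_one' := by simp
      map_mul' := fun a c => by
        push_cast
        exact Real.mul_rpow (by positivity) (by positivity) }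
  have hg : ∀ m : ℕ, g m = (m : ℝ) ^ (-ε) := fun m => rfl
  have hg0 : ∀ m : ℕ, 0 ≤ g m := fun m => by rw [hg]; positivity
  have hlt : ∀ {p : ℕ}, p.Prime → ‖g p‖ < 1 := by
    intro p hp
    rw [Real.norm_of_nonneg (hg0 p), hg]
    exact Real.rpow_lt_one_of_one_lt_of_neg (by exact_mod_cast hp.one_lt) (by linarith)
  obtain ⟨h1, h2⟩ :=
    EulerProduct.summable_and_hasSum_factoredNumbers_prod_filter_prime_geometric (f := g) hlt S
  have hfil : S.filter Nat.Prime = S := Finset.filter_true_of_mem hS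
  rw [hfil] at h2
  have hmem : ∀ m ∈ T, m ∈ Nat.factoredNumbers S := by
    intro m hm
    obtain ⟨a1, _, a3⟩ := hT m hm
    exact Nat.mem_factoredNumbers'.mpr a3
  have hsum : ∑ m ∈ T, g m ≤ ∏ p ∈ S, (1 - g p)⁻¹ := by
    let T' : Finset (Nat.factoredNumbers S) := T.attach.map
      ⟨fun x => ⟨x.1, hmem x.1 x.2⟩, fun x y hxy => by
        apply Subtype.ext
        exact congrArg (fun z : Nat.factoredNumbers S => (z : ℕ)) hxy⟩
    have h3 : ∑ m ∈ T, g m = ∑ m ∈ T', g m := by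
      simp only [T', Finset.sum_map, Function.Embedding.coeFn_mk]
      rw [← Finset.sum_attach]
    rw [h3]
    exact sum_le_hasSum T' (fun m _ => hg0 m) h2
  have hcard : (T.card : ℝ) ≤ ∑ m ∈ T, X ^ ε * g m := by
    have h4 : (T.card : ℝ) = ∑ m ∈ T, (1 : ℝ) := by simp
    rw [h4]
    apply Finset.sum_le_sum
    intro m hm
    obtain ⟨a1, a2, _⟩ := hT m hm
    have hmpos : (0:ℝ) < m := by positivity
    rw [hg, Real.rpow_neg hmpos.le, ← div_eq_mul_inv, le_div_iff₀ (by positivity), one_mul]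
    exact Real.rpow_le_rpow hmpos.le a2 hε.le
  calc (T.card : ℝ) ≤ ∑ m ∈ T, X ^ ε * g m := hcard
    _ = X ^ ε * ∑ m ∈ T, g m := by rw [Finset.mul_sum]
    _ ≤ X ^ ε * ∏ p ∈ S, (1 - g p)⁻¹ := mul_le_mul_of_nonneg_left hsum (by positivity)
    _ = _ := by simp only [hg]

/-- the Euler factors are small -/
theorem euler_le {ε : ℝ} (hε : 0 < ε) : ∃ C : ℝ, 1 ≤ C ∧ ∀ S : Finset ℕ, (∀ p ∈ S, p.Prime) →
    ∏ p ∈ S, (1 - (p : ℝ) ^ (-ε))⁻¹ ≤ C * ∏ p ∈ S, (p : ℝ) ^ ε := by
  set K : ℝ := (1 - (2 : ℝ) ^ (-ε))⁻¹ with hK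
  set P : ℕ := ⌈(2 : ℝ) ^ (1 / ε)⌉₊ with hP
  have h2 : (0:ℝ) < (2 : ℝ) ^ (-ε) := by positivity
  have h2' : (2 : ℝ) ^ (-ε) < 1 := Real.rpow_lt_one_of_one_lt_of_neg (by norm_num) (by linarith)
  have hK1 : 1 ≤ K := by
    rw [hK]
    exact (one_le_inv₀ (by linarith)).mpr (by linarith)
  refine ⟨K ^ P, one_le_pow₀ hK1, ?_⟩
  intro S hS
  have hpt : ∀ p ∈ S, (1 - (p : ℝ) ^ (-ε))⁻¹ ≤ (if p < P then K else 1) * (p : ℝ) ^ ε := by
    intro p hp
    have hp2 : (2:ℝ) ≤ p := by exact_mod_cast (hS p hp).two_le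
    have hppos : (0:ℝ) < p := by linarith
    have hpe : 1 ≤ (p : ℝ) ^ ε := Real.one_le_rpow (by linarith) hε.le
    split_ifs with h
    · have h3 : (p : ℝ) ^ (-ε) ≤ (2 : ℝ) ^ (-ε) :=
        Real.rpow_le_rpow_of_nonpos (by norm_num) hp2 (by linarith)
      calc (1 - (p : ℝ) ^ (-ε))⁻¹ ≤ K := by
            rw [hK]
            exact inv_anti₀ (by linarith) (by linarith)
        _ = K * 1 := (mul_one K).symm
        _ ≤ K * (p : ℝ) ^ ε := mul_le_mul_of_nonneg_left hpe (by linarith)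
    · rw [one_mul]
      have h3 : (2 : ℝ) ^ (1 / ε) ≤ p := by
        push Not at h
        exact le_trans (Nat.le_ceil _) (by exact_mod_cast h)
      have h4 : (2 : ℝ) ≤ (p : ℝ) ^ ε := by
        have := Real.rpow_le_rpow (by positivity) h3 hε.le
        rw [← Real.rpow_mul (by norm_num), one_div, inv_mul_cancel₀ hε.ne', Real.rpow_one] at this
        exact this
      rw [Real.rpow_neg hppos.le]
      have h5 : ((p : ℝ) ^ ε)⁻¹ ≤ 2⁻¹ := inv_anti₀ (by norm_num) h4
      calc (1 - ((p : ℝ) ^ ε)⁻¹)⁻¹ ≤ (2⁻¹ : ℝ)⁻¹ := inv_anti₀ (by norm_num) (by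
            have : (2⁻¹ : ℝ) = 1 - 2⁻¹ := by norm_num
            linarith)
        _ = 2 := by norm_num
        _ ≤ _ := h4
  have hnn : ∀ p ∈ S, 0 ≤ (1 - (p : ℝ) ^ (-ε))⁻¹ := by
    intro p hp
    apply inv_nonneg.mpr
    have : (p : ℝ) ^ (-ε) < 1 :=
      Real.rpow_lt_one_of_one_lt_of_neg (by exact_mod_cast (hS p hp).one_lt) (by linarith)
    linarith
  calc ∏ p ∈ S, (1 - (p : ℝ) ^ (-ε))⁻¹
      ≤ ∏ p ∈ S, ((if p < P then K else 1) * (p : ℝ) ^ ε) := Finset.prod_le_prod hnn hpt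
    _ = (∏ p ∈ S, (if p < P then K else 1)) * ∏ p ∈ S, (p : ℝ) ^ ε := Finset.prod_mul_distrib
    _ ≤ K ^ P * ∏ p ∈ S, (p : ℝ) ^ ε := by
        apply mul_le_mul_of_nonneg_right _ (Finset.prod_nonneg (fun p _ => by positivity))
        rw [Finset.prod_ite, Finset.prod_const, Finset.prod_const_one, mul_one]
        apply pow_le_pow_right₀ hK1
        calc (S.filter (fun p => p < P)).card ≤ (Finset.range P).card := by
              apply Finset.card_le_card
              intro p hp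
              exact Finset.mem_range.mpr (Finset.mem_filter.mp hp).2
          _ = P := Finset.card_range P

/-- the integers up to `N ^ 3` all of whose primes divide `N` -/
def sup3 (N : ℕ) : Finset ℕ :=
  (Finset.Icc 1 (N ^ 3)).filter (fun m => ∀ p ∈ m.primeFactors, p ∣ N)

theorem sup3_card {ε : ℝ} (hε : 0 < ε) : ∃ C : ℝ, 1 ≤ C ∧ ∀ N : ℕ, 1 ≤ N →
    ((sup3 N).card : ℝ) ≤ C * (N : ℝ) ^ ε := by
  obtain ⟨C, hC, h⟩ := euler_le (ε := ε / 4) (by linarith)
  refine ⟨C, hC, ?_⟩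
  intro N hN
  have hNpos : (0:ℝ) < N := by exact_mod_cast hN
  have hN0 : N ≠ 0 := by omega
  have hpr : ∀ p ∈ N.primeFactors, p.Prime := fun p hp => Nat.prime_of_mem_primeFactors hp
  have h1 := rankin (ε := ε / 4) (by linarith) N.primeFactors hpr
    (X := (N : ℝ) ^ 3) (by positivity) (sup3 N) (by
      intro m hm
      rw [sup3, Finset.mem_filter, Finset.mem_Icc] at hm
      refine ⟨by omega, by exact_mod_cast hm.1.2, fun p hp hpm => ?_⟩
      exact Nat.mem_primeFactors.mpr ⟨hp, hm.2 p (Nat.mem_primeFactors.mpr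
        ⟨hp, hpm, by omega⟩), hN0⟩)
  have h2 : ∏ p ∈ N.primeFactors, (p : ℝ) ^ (ε / 4) ≤ (N : ℝ) ^ (ε / 4) := by
    rw [Real.finsetProd_rpow _ _ (fun p _ => by positivity)]
    apply Real.rpow_le_rpow (Finset.prod_nonneg (fun p _ => by positivity)) _ (by linarith)
    have h5 : ((∏ p ∈ N.primeFactors, p : ℕ) : ℝ) ≤ (N : ℝ) := by
      exact_mod_cast Nat.le_of_dvd (by omega) (Nat.prod_primeFactors_dvd N)
    rw [Nat.cast_prod] at h5
    exact h5
  have h3 : ((N : ℝ) ^ 3) ^ (ε / 4) = (N : ℝ) ^ (3 * (ε / 4)) := by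
    rw [← Real.rpow_natCast, ← Real.rpow_mul hNpos.le]
    norm_num
  calc ((sup3 N).card : ℝ) ≤ ((N : ℝ) ^ 3) ^ (ε / 4) *
        ∏ p ∈ N.primeFactors, (1 - (p : ℝ) ^ (-(ε / 4)))⁻¹ := h1
    _ ≤ ((N : ℝ) ^ 3) ^ (ε / 4) * (C * ∏ p ∈ N.primeFactors, (p : ℝ) ^ (ε / 4)) :=
        mul_le_mul_of_nonneg_left (h _ hpr) (by positivity)
    _ ≤ ((N : ℝ) ^ 3) ^ (ε / 4) * (C * (N : ℝ) ^ (ε / 4)) := by
        apply mul_le_mul_of_nonneg_left _ (by positivity)
        exact mul_le_mul_of_nonneg_left h2 (by linarith)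
    _ = C * (N : ℝ) ^ ε := by
        rw [h3]
        have : (N : ℝ) ^ (3 * (ε / 4)) * (C * (N : ℝ) ^ (ε / 4)) =
          C * ((N : ℝ) ^ (3 * (ε / 4)) * (N : ℝ) ^ (ε / 4)) := by ring
        rw [this, ← Real.rpow_add hNpos]
        congr 2
        ring

end

section

variable {c : ℚ} {x : ℕ → ℚ} {n : ℕ}

theorem den_one {q : ℚ} (h : ∀ p : ℕ, p.Prime → padicNorm p q ≤ 1) : q.den = 1 := by
  by_contra hne
  obtain ⟨p, hp, hd⟩ := Nat.exists_prime_and_dvd hne
  have : Fact p.Prime := ⟨hp⟩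
  have h1 := norm_den (p := p) q
  rw [max_eq_left (h p hp)] at h1
  have h2 : 1 ≤ padicValNat p q.den := one_le_padicValNat_of_dvd q.den_ne_zero hd
  have h3 : (p : ℚ) ^ (0 : ℕ) = (p : ℚ) ^ (padicValNat p q.den) := by rw [pow_zero]; exact h1
  have := pow_inj hp h3
  omega

/-- the integers attached to the sums of two points -/
theorem Cyc.nat_sum (C : Cyc c x n) {k : ℕ} (hk : ∀ i, x i ≠ x (i + k)) (i : ℕ) :
    ∃ S : ℕ, ((x 0).den : ℚ) * |x i + x (i + k)| = S ∧ 1 ≤ S ∧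
      ∀ p : ℕ, p.Prime → p ∣ S → p ∣ (x 0).den := by
  set d := (x 0).den with hd
  have hdq : (d : ℚ) ≠ 0 := by exact_mod_cast (x 0).den_ne_zero
  have hsum0 : x i + x (i + k) ≠ 0 := by
    intro h0
    apply hk (i + 1)
    rw [C.step, show i + 1 + k = i + k + 1 by ring, C.step]
    linear_combination (x i - x (i + k)) * h0
  set q := (d : ℚ) * (x i + x (i + k)) with hq
  have hq0 : q ≠ 0 := mul_ne_zero hdq hsum0
  have hnd : ∀ (p : ℕ) [Fact p.Prime], padicNorm p (d : ℚ) * (p : ℚ) ^ (padicValNat p d) = 1 := by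
    intro p hp
    have hp0 : (p : ℚ) ≠ 0 := by exact_mod_cast hp.out.ne_zero
    rw [padicNorm.eq_zpow_of_nonzero hdq, padicValRat.of_nat, zpow_neg, zpow_natCast]
    exact inv_mul_cancel₀ (pow_ne_zero _ hp0)
  have hnorm : ∀ p : ℕ, p.Prime → padicNorm p q ≤ 1 := by
    intro p hp
    have : Fact p.Prime := ⟨hp⟩
    rw [hq, padicNorm.mul, ← hnd p]
    exact mul_le_mul_of_nonneg_left (C.sum_norm hk p i).1 (padicNorm.nonneg _)
  have hden := den_one hnorm
  have hqn : q = q.num := by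
    conv_lhs => rw [← Rat.num_div_den q, hden]
    simp
  refine ⟨q.num.natAbs, ?_, ?_, ?_⟩
  · have h1 : (d : ℚ) * |x i + x (i + k)| = |q| := by
      rw [hq, abs_mul, abs_of_nonneg (by positivity : (0:ℚ) ≤ (d : ℚ))]
    rw [h1, hqn]
    simp [Nat.cast_natAbs]
  · have h1 : q.num ≠ 0 := by simpa using hq0
    exact Nat.pos_of_ne_zero (Int.natAbs_ne_zero.mpr h1)
  · intro p hp hpd
    have : Fact p.Prime := ⟨hp⟩
    by_contra hnp
    have h1 : padicNorm p q = 1 := by
      rw [hq, padicNorm.mul, (C.sum_norm hk p i).2 hnp, mul_one, padicNorm.eq_zpow_of_nonzero hdq,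
        padicValRat.of_nat, padicValNat.eq_zero_of_not_dvd hnp]
      simp
    have h2 : padicNorm p (q.num : ℚ) < 1 := by
      rw [padicNorm.int_lt_one_iff]
      exact Int.natCast_dvd.mpr hpd
    rw [← hqn, h1] at h2
    exact lt_irrefl _ h2

/-- the candidates for `c` -/
def cand (d : ℕ) (t : (ℕ × ℕ × ℕ) × (Bool × Bool × Bool)) : ℚ :=
  let s : ℚ := (if t.2.1 then 1 else -1) * ((t.1.1 : ℚ) / (d : ℚ))
  let s' : ℚ := (if t.2.2.1 then 1 else -1) * ((t.1.2.1 : ℚ) / (d : ℚ))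
  let w : ℚ := (if t.2.2.2 then 1 else -1) * ((t.1.2.2 : ℚ) / (d : ℚ))
  s - (s - s' + w) / 2 - ((s - s' + w) / 2) ^ 2

/-- the index set -/
def index (d : ℕ) : Finset ((ℕ × ℕ × ℕ) × (Bool × Bool × Bool)) :=
  (sup3 d ×ˢ sup3 d ×ˢ sup3 d) ×ˢ (Finset.univ ×ˢ Finset.univ ×ˢ Finset.univ)

theorem index_card (d : ℕ) : (index d).card = 8 * (sup3 d).card ^ 3 := by
  simp only [index, Finset.card_product, Finset.card_univ, Fintype.card_bool]
  ring

theorem Cyc.mem_cand (C : Cyc c x n) : c ∈ (index (x 0).den).image (cand (x 0).den) := by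
  have hn : 0 < n := by have := C.hn; omega
  set d := (x 0).den with hd
  have hdpos : 0 < d := (x 0).den_pos
  have hdq : (d : ℚ) ≠ 0 := by exact_mod_cast (x 0).den_ne_zero
  choose S hS hS1 hSp using fun i => C.nat_sum (k := 1) C.ne1 i
  choose T hT hT1 hTp using fun i => C.nat_sum (k := 2) C.ne2 i
  rw [← hd] at hS hSp hT hTp
  have hSprod : ∏ i ∈ Finset.range n, S i = d ^ n := by
    have h1 : ((∏ i ∈ Finset.range n, S i : ℕ) : ℚ) = (d : ℚ) ^ n := by
      rw [Nat.cast_prod, Finset.prod_congr rfl (fun i _ => (hS i).symm), Finset.prod_mul_distrib,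
        Finset.prod_const, Finset.card_range, ← Finset.abs_prod, C.sum_prod C.ne1, abs_one, mul_one]
    exact_mod_cast h1
  have hTprod : ∏ i ∈ Finset.range n, T i = d ^ n := by
    have h1 : ((∏ i ∈ Finset.range n, T i : ℕ) : ℚ) = (d : ℚ) ^ n := by
      rw [Nat.cast_prod, Finset.prod_congr rfl (fun i _ => (hT i).symm), Finset.prod_mul_distrib,
        Finset.prod_const, Finset.card_range, ← Finset.abs_prod, C.sum_prod C.ne2, abs_one, mul_one]
    exact_mod_cast h1
  have hSper : S n = S 0 := by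
    have h1 : (S n : ℚ) = S 0 := by
      rw [← hS, ← hS]
      have a := C.per 0
      have e := C.per 1
      rw [Nat.zero_add] at a
      rw [show n + 1 = 1 + n by ring, a, e]
    exact_mod_cast h1
  have hSshift : ∏ i ∈ Finset.range n, S (i + 1) = d ^ n := by
    have h1 := Finset.prod_range_succ S n
    have h2 := Finset.prod_range_succ' S n
    rw [hSper] at h1
    rw [h1] at h2
    rw [← hSprod]
    exact (Nat.eq_of_mul_eq_mul_right (hS1 0) h2).symm
  obtain ⟨i, hi⟩ : ∃ i, S i * S (i + 1) * T i ≤ d ^ 3 := by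
    by_contra hcon
    push Not at hcon
    have h4 : ∏ i ∈ Finset.range n, d ^ 3 < ∏ i ∈ Finset.range n, (S i * S (i + 1) * T i) := by
      apply Finset.prod_lt_prod_of_nonempty
      · intro i _
        exact Nat.pow_pos hdpos
      · intro i _
        exact hcon i
      · exact ⟨0, Finset.mem_range.mpr hn⟩
    rw [Finset.prod_mul_distrib, Finset.prod_mul_distrib, Finset.prod_const, Finset.card_range,
      hSprod, hTprod, hSshift] at h4
    have h6 : d ^ n * d ^ n * d ^ n = (d ^ 3) ^ n := by ring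
    omega
  have hle : ∀ a, a ∣ S i * S (i + 1) * T i → a ≤ d ^ 3 := by
    intro a ha
    refine le_trans (Nat.le_of_dvd ?_ ha) hi
    exact Nat.mul_pos (Nat.mul_pos (hS1 _) (hS1 _)) (hT1 _)
  have hmem : ∀ a, 1 ≤ a → (∀ p : ℕ, p.Prime → p ∣ a → p ∣ d) →
      a ∣ S i * S (i + 1) * T i → a ∈ sup3 d := by
    intro a h1 h2 h3
    rw [sup3, Finset.mem_filter, Finset.mem_Icc]
    exact ⟨⟨h1, hle a h3⟩, fun p hp => h2 p (Nat.prime_of_mem_primeFactors hp)
      (Nat.dvd_of_mem_primeFactors hp)⟩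
  have m1 := hmem _ (hS1 i) (hSp i) ⟨S (i + 1) * T i, by ring⟩
  have m2 := hmem _ (hS1 (i + 1)) (hSp (i + 1)) ⟨S i * T i, by ring⟩
  have m3 := hmem _ (hT1 i) (hTp i) ⟨S i * S (i + 1), by ring⟩
  have habs : ∀ (y : ℚ) (a : ℕ), (d : ℚ) * |y| = a →
      y = (if (0 ≤ y : Bool) then 1 else -1) * ((a : ℚ) / (d : ℚ)) := by
    intro y a h
    rw [← h, mul_div_cancel_left₀ _ hdq]
    by_cases h0 : 0 ≤ y
    · simp [h0, abs_of_nonneg h0]
    · push Not at h0
      simp [not_le.mpr h0, abs_of_neg h0]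
  rw [Finset.mem_image]
  refine ⟨((S i, S (i + 1), T i), ((0 ≤ x i + x (i + 1) : Bool),
    (0 ≤ x (i + 1) + x (i + 1 + 1) : Bool), (0 ≤ x i + x (i + 2) : Bool))), ?_, ?_⟩
  · simp only [index, Finset.mem_product, Finset.mem_univ, and_true]
    exact ⟨m1, m2, m3⟩
  · simp only [cand]
    rw [← habs _ _ (hS i), ← habs _ _ (hS (i + 1)), ← habs _ _ (hT i)]
    have h1 := C.step i
    rw [show i + 1 + 1 = i + 2 by ring]
    linear_combination h1

end

section

variable {c : ℚ} {x : ℕ → ℚ} {n : ℕ}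

theorem Cyc.per_mul (C : Cyc c x n) (m i : ℕ) : x (i + n * m) = x i := by
  induction m with
  | zero => simp
  | succ m ih => rw [Nat.mul_succ, ← Nat.add_assoc, C.per, ih]

theorem Cyc.shift_ne (C : Cyc c x n) {i k : ℕ} (h : x i ≠ x (i + k)) : ∀ m, x m ≠ x (m + k) := by
  intro m heq
  apply h
  have h1 : ∀ t, x (m + t) = x (m + t + k) := by
    intro t
    induction t with
    | zero => exact heq
    | succ t ih =>
      rw [← Nat.add_assoc, C.step, show m + t + 1 + k = m + t + k + 1 by ring, C.step, ih]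
  have h2 := C.per_mul m i
  have h3 := C.per_mul m (i + k)
  have hn := C.hn
  have h4 : m ≤ i + n * m := by nlinarith
  obtain ⟨t, ht⟩ := Nat.exists_eq_add_of_le h4
  rw [← h2, ← h3, show i + k + n * m = i + n * m + k by ring, ht]
  exact h1 t

theorem Cyc.pair (C : Cyc c x n) {i j : ℕ} (h : x i ≠ x j) :
    1 ≤ ((x 0).den : ℚ) * |x i + x j| := by
  have key : ∀ i j : ℕ, i ≤ j → x i ≠ x j → 1 ≤ ((x 0).den : ℚ) * |x i + x j| := by
    intro i j hij hne
    obtain ⟨k, rfl⟩ := Nat.exists_eq_add_of_le hij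
    obtain ⟨S, h1, h2, _⟩ := C.nat_sum (C.shift_ne hne) i
    rw [h1]
    exact_mod_cast h2
  rcases le_total i j with h1 | h1
  · exact key i j h1 h
  · have := key j i h1 (Ne.symm h)
    rwa [add_comm] at this

theorem three_props {P Q R : Prop} (h1 : ¬ (P ↔ Q)) (h2 : ¬ (Q ↔ R)) (h3 : ¬ (P ↔ R)) :
    False := by
  by_cases p : P <;> by_cases q : Q <;> by_cases r : R <;> simp_all

/-- the size criterion -/
theorem Cyc.size (C : Cyc c x n) (h9 : 9 ≤ |c|) (hden : (c.den : ℚ) ≤ |c|) : False := by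
  have hn : 0 < n := by have := C.hn; omega
  have hcneg : c < 0 := by
    by_contra hc
    push Not at hc
    rw [abs_of_nonneg hc] at h9
    apply per_lt x hn C.per 0
    intro i _
    rw [C.step]
    nlinarith [sq_nonneg (x i - 1)]
  rw [abs_of_neg hcneg] at h9 hden
  obtain ⟨K, hK⟩ : ∃ K : ℚ, K = -c := ⟨_, rfl⟩
  rw [← hK] at h9 hden
  have hstep : ∀ i, x (i + 1) = x i ^ 2 - K := by
    intro i; rw [C.step, hK]; ring
  set d : ℚ := ((x 0).den : ℚ) with hd
  have hd0 : 0 < d := by rw [hd]; exact_mod_cast (x 0).den_pos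
  have hd2 : d ^ 2 ≤ K := by
    rw [C.den_eq 0] at hden
    push_cast at hden
    exact hden
  -- the maximum
  obtain ⟨m, hm⟩ : ∃ m, ∀ j, |x j| ≤ |x m| := by
    obtain ⟨m, _, hmax⟩ := Finset.exists_max_image (Finset.range n) (fun i => |x i|)
      ⟨0, Finset.mem_range.mpr hn⟩
    refine ⟨m, fun j => ?_⟩
    have h1 := C.per_mul (j / n) (j % n)
    rw [Nat.mod_add_div] at h1
    rw [h1]
    exact hmax _ (Finset.mem_range.mpr (Nat.mod_lt _ hn))
  set M := |x m| with hM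
  have hM0 : 0 ≤ M := abs_nonneg _
  have hM2 : M ^ 2 ≤ M + K := by
    have h1 := hstep m
    have h2 := le_trans (le_abs_self _) (hm (m + 1))
    rw [hM, sq_abs]
    rw [← hM]
    linarith
  have hM3 : M ≤ 2 / 5 * K := by
    by_contra hcon
    push Not at hcon
    nlinarith
  have hKM : 0 < K - M := by linarith
  have hlow : ∀ i, K - M ≤ x i ^ 2 := by
    intro i
    have h1 := hstep i
    have h2 := hm (i + 1)
    have h3 := neg_abs_le (x (i + 1))
    linarith
  have hne0 : ∀ i, x i ≠ 0 := by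
    intro i h0
    have := hlow i
    rw [h0] at this
    norm_num at this
    linarith
  have hdM : d * M < 2 * (K - M) := by
    have h1 : (d * M) ^ 2 ≤ K * (M + K) := by
      rw [mul_pow]
      exact mul_le_mul hd2 hM2 (sq_nonneg _) (by linarith)
    have h2 : K * (M + K) < (2 * (K - M)) ^ 2 := by nlinarith
    exact lt_of_pow_lt_pow_left₀ 2 (by linarith) (lt_of_le_of_lt h1 h2)
  -- lower bounds for sums of absolute values
  have hab : ∀ i j, 4 * (K - M) ≤ (|x i| + |x j|) ^ 2 := by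
    intro i j
    have h1 := hlow i
    have h2 := hlow j
    rw [← sq_abs] at h1 h2
    have h3 : K - M ≤ |x i| * |x j| := by
      have h4 : (K - M) ^ 2 ≤ (|x i| * |x j|) ^ 2 := by
        rw [mul_pow, sq]
        exact mul_le_mul h1 h2 hKM.le (sq_nonneg _)
      exact le_of_sq_le_sq h4 (by positivity)
    nlinarith
  -- opposite signs are preserved
  have hopp : ∀ i j, 0 < x i → x j < 0 → (0 < x (i + 1) ↔ 0 < x (j + 1)) → False := by
    intro i j hi hj hs
    have hne : x i ≠ x j := by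
      intro h; rw [h] at hi; linarith
    have h1 := C.pair hne
    rw [← hd] at h1
    set P := |x i + x j| with hP
    set Q := |x (i + 1) - x (j + 1)| with hQ
    have e1 : P * (|x i| + |x j|) = Q := by
      have h2 : |x i| + |x j| = |x i - x j| := by
        rw [abs_of_pos hi, abs_of_neg hj, abs_of_pos (by linarith)]; ring
      rw [h2, hP, hQ, ← abs_mul, hstep i, hstep j]
      congr 1
      ring
    have e2 : Q * (|x (i + 1)| + |x (j + 1)|) = |x (i + 1 + 1) - x (j + 1 + 1)| := by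
      have h2 : |x (i + 1)| + |x (j + 1)| = |x (i + 1) + x (j + 1)| := by
        rcases lt_or_gt_of_ne (hne0 (i + 1)) with h | h
        · have h' : x (j + 1) < 0 := by
            rcases lt_or_gt_of_ne (hne0 (j + 1)) with h3 | h3
            · exact h3
            · have := hs.mpr h3; linarith
          rw [abs_of_neg h, abs_of_neg h', abs_of_neg (by linarith)]; ring
        · have h' := hs.mp h
          rw [abs_of_pos h, abs_of_pos h', abs_of_pos (by linarith)]
      rw [h2, hQ, ← abs_mul, hstep (i + 1), hstep (j + 1)]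
      congr 1
      ring
    have h3 : |x (i + 1 + 1) - x (j + 1 + 1)| ≤ 2 * M := by
      have a := hm (i + 1 + 1)
      have b := hm (j + 1 + 1)
      have := abs_sub (x (i + 1 + 1)) (x (j + 1 + 1))
      linarith
    have a1 := hab i j
    have a2 := hab (i + 1) (j + 1)
    set A := |x i| + |x j| with hA
    set B := |x (i + 1)| + |x (j + 1)| with hB
    have hA0 : 0 ≤ A := by positivity
    have hB0 : 0 ≤ B := by positivity
    have hAB : 4 * (K - M) ≤ A * B := by
      have h4 : (4 * (K - M)) ^ 2 ≤ (A * B) ^ 2 := by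
        rw [mul_pow A B, sq (4 * (K - M))]
        exact mul_le_mul a1 a2 (by linarith) (sq_nonneg _)
      exact le_of_sq_le_sq h4 (by positivity)
    have hP0 : 0 ≤ P := abs_nonneg _
    have h5 : P * (4 * (K - M)) ≤ 2 * M := by
      calc P * (4 * (K - M)) ≤ P * (A * B) := mul_le_mul_of_nonneg_left hAB hP0
        _ = Q * B := by rw [← e1]; ring
        _ ≤ 2 * M := by rw [e2]; exact h3
    -- 1 ≤ d P
    have h6 : d * (P * (4 * (K - M))) ≤ d * (2 * M) := mul_le_mul_of_nonneg_left h5 hd0.le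
    have h7 : 4 * (K - M) ≤ d * P * (4 * (K - M)) := by
      have : 0 ≤ 4 * (K - M) := by linarith
      nlinarith
    nlinarith
  -- signs have period two
  have hsame : ∀ i, (0 < x i ↔ 0 < x (i + 2)) := by
    intro i
    have hswap : ∀ i j, ¬ (0 < x i ↔ 0 < x j) → ¬ (0 < x (i + 1) ↔ 0 < x (j + 1)) := by
      intro i j hij hs
      rcases lt_or_gt_of_ne (hne0 i) with h | h <;> rcases lt_or_gt_of_ne (hne0 j) with h' | h'
      · apply hij
        constructor <;> intro h3 <;> linarith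
      · exact hopp j i h' h hs.symm
      · exact hopp i j h h' hs
      · exact hij ⟨fun _ => h', fun _ => h⟩
    by_contra hcon
    have h1 := hswap _ _ hcon
    -- b i ≠ b (i+2), b (i+1) ≠ b (i+3)
    by_cases h2 : (0 < x i ↔ 0 < x (i + 1))
    · -- b i = b (i+1) ≠ b (i+2)
      have h3 : ¬ (0 < x (i + 1) ↔ 0 < x (i + 2)) := by
        intro h4; exact hcon (h2.trans h4)
      have h4 := hswap _ _ h3
      have h5 := hswap _ _ hcon
      -- b (i+2) ≠ b (i+3), b (i+1) ≠ b (i+3)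
      rw [show i + 1 + 1 = i + 2 by ring] at h4
      rw [show i + 2 + 1 = i + 3 by ring] at h4 h5
      exact three_props h3 h4 h5
    · have h3 := hswap _ _ h2
      rw [show i + 1 + 1 = i + 2 by ring] at h3
      exact three_props h2 h3 hcon
  apply per_lt (fun i => |x i - x (i + 2)|) hn
    (fun i => by
      show |x (i + n) - x (i + n + 2)| = |x i - x (i + 2)|
      rw [show i + n + 2 = i + 2 + n by ring, C.per, C.per]) 0
  intro i _
  show |x i - x (i + 2)| < |x (i + 1) - x (i + 1 + 2)|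
  have h1 : |x (i + 1) - x (i + 1 + 2)| = |x i - x (i + 2)| * |x i + x (i + 2)| := by
    rw [← abs_mul, hstep i, show i + 1 + 2 = i + 2 + 1 by ring, hstep (i + 2)]
    congr 1
    ring
  have h2 : |x i + x (i + 2)| = |x i| + |x (i + 2)| := by
    rcases lt_or_gt_of_ne (hne0 i) with h | h
    · have h' : x (i + 2) < 0 := by
        rcases lt_or_gt_of_ne (hne0 (i + 2)) with h3 | h3
        · exact h3
        · have := (hsame i).mpr h3; linarith
      rw [abs_of_neg h, abs_of_neg h', abs_of_neg (by linarith)]; ring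
    · have h' := (hsame i).mp h
      rw [abs_of_pos h, abs_of_pos h', abs_of_pos (by linarith)]
  have h3 := hab i (i + 2)
  have h4 : 1 < |x i| + |x (i + 2)| := by
    have h5 : (1:ℚ) ^ 2 < (|x i| + |x (i + 2)|) ^ 2 := by
      have : 4 * (K - M) ≥ 4 * (9 - 2 / 5 * 9) := by nlinarith
      linarith
    exact lt_of_pow_lt_pow_left₀ 2 (by positivity) h5
  have h5 : 0 < |x i - x (i + 2)| := abs_pos.mpr (sub_ne_zero.mpr (C.ne2 i))
  rw [h1, h2]
  nlinarith

end

section

/-- the quadratic polynomial `x ^ 2 + c` -/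
def f (c : ℚ) : ℚ → ℚ := fun y => y ^ 2 + c

/-- some rational periodic point has exact period at least three -/
def Long (c : ℚ) : Prop := ∃ x ∈ Function.periodicPts (f c), 3 ≤ Function.minimalPeriod (f c) x

theorem Long.cyc {c : ℚ} (h : Long c) : ∃ (x : ℕ → ℚ) (n : ℕ), Cyc c x n := by
  obtain ⟨x, hx, h3⟩ := h
  refine ⟨fun i => (f c)^[i] x, Function.minimalPeriod (f c) x, h3, ?_, ?_, ?_, ?_⟩
  · intro i
    show (f c)^[i + 1] x = ((f c)^[i] x) ^ 2 + c
    rw [Function.iterate_succ_apply']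
    rfl
  · intro i
    show (f c)^[i + Function.minimalPeriod (f c) x] x = (f c)^[i] x
    rw [Function.iterate_add_apply, Function.iterate_minimalPeriod]
  · intro i heq
    have heq' : (f c)^[i] x = (f c)^[i + 1] x := heq
    have h1 : Function.IsPeriodicPt (f c) 1 ((f c)^[i] x) := by
      show (f c)^[1] ((f c)^[i] x) = (f c)^[i] x
      rw [← Function.iterate_add_apply, Nat.add_comm 1 i]
      exact heq'.symm
    have h2 := Function.minimalPeriod_apply_iterate hx i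
    have h4 := h1.minimalPeriod_dvd
    rw [h2] at h4
    have := Nat.le_of_dvd (by norm_num) h4
    omega
  · intro i heq
    have heq' : (f c)^[i] x = (f c)^[i + 2] x := heq
    have h1 : Function.IsPeriodicPt (f c) 2 ((f c)^[i] x) := by
      show (f c)^[2] ((f c)^[i] x) = (f c)^[i] x
      rw [← Function.iterate_add_apply, Nat.add_comm 2 i]
      exact heq'.symm
    have h2 := Function.minimalPeriod_apply_iterate hx i
    have h4 := h1.minimalPeriod_dvd
    rw [h2] at h4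
    have := Nat.le_of_dvd (by norm_num) h4
    omega

/-- size criterion -/
theorem long_size {c : ℚ} (h9 : 9 ≤ |c|) (hden : (c.den : ℚ) ≤ |c|) : ¬ Long c := by
  intro h
  obtain ⟨x, n, C⟩ := h.cyc
  exact C.size h9 hden

theorem long_mem {c : ℚ} (h : Long c) : ∃ d : ℕ, 1 ≤ d ∧ c.den = d ^ 2 ∧
    c ∈ (index d).image (cand d) := by
  obtain ⟨x, n, C⟩ := h.cyc
  exact ⟨(x 0).den, (x 0).den_pos, C.den_eq 0, C.mem_cand⟩

/-- few `c` with a given denominator -/
theorem long_count {ε : ℝ} (hε : 0 < ε) : ∃ C : ℝ, 1 ≤ C ∧ ∀ d : ℕ, 1 ≤ d →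
    {c : ℚ | c.den = d ^ 2 ∧ Long c}.Finite ∧
    ({c : ℚ | c.den = d ^ 2 ∧ Long c}.ncard : ℝ) ≤ C * (d : ℝ) ^ ε := by
  obtain ⟨C, hC, h⟩ := sup3_card (ε := ε / 3) (by linarith)
  refine ⟨8 * C ^ 3, by nlinarith [one_le_pow₀ (n := 3) hC], ?_⟩
  intro d hd
  have hdpos : (0:ℝ) < d := by exact_mod_cast hd
  have hsub : {c : ℚ | c.den = d ^ 2 ∧ Long c} ⊆
      (((index d).image (cand d) : Finset ℚ) : Set ℚ) := by
    rintro c ⟨hc, hL⟩
    obtain ⟨d', hd', h1, h2⟩ := long_mem hL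
    rw [hc] at h1
    have h3 : d = d' := Nat.pow_left_injective (n := 2) (by norm_num) h1
    rw [h3]
    exact h2
  refine ⟨(Finset.finite_toSet _).subset hsub, ?_⟩
  have h1 : {c : ℚ | c.den = d ^ 2 ∧ Long c}.ncard ≤ 8 * (sup3 d).card ^ 3 := by
    calc {c : ℚ | c.den = d ^ 2 ∧ Long c}.ncard
        ≤ (((index d).image (cand d) : Finset ℚ) : Set ℚ).ncard :=
          Set.ncard_le_ncard hsub (Finset.finite_toSet _)
      _ = ((index d).image (cand d)).card := Set.ncard_coe_finset _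
      _ ≤ (index d).card := Finset.card_image_le
      _ = _ := index_card d
  calc ({c : ℚ | c.den = d ^ 2 ∧ Long c}.ncard : ℝ)
      ≤ ((8 * (sup3 d).card ^ 3 : ℕ) : ℝ) := by exact_mod_cast h1
    _ = 8 * ((sup3 d).card : ℝ) ^ 3 := by push_cast; ring
    _ ≤ 8 * (C * (d : ℝ) ^ (ε / 3)) ^ 3 := by
        apply mul_le_mul_of_nonneg_left _ (by norm_num)
        exact pow_le_pow_left₀ (by positivity) (h d hd) 3
    _ = 8 * C ^ 3 * (d : ℝ) ^ ε := by
        rw [mul_pow, ← Real.rpow_natCast ((d : ℝ) ^ (ε / 3)), ← Real.rpow_mul hdpos.le]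
        have : ε / 3 * ((3 : ℕ) : ℝ) = ε := by push_cast; ring
        rw [this]
        ring

/-- few `c` with a denominator at most `H` -/
theorem long_total {ε : ℝ} (hε : 0 < ε) : ∃ C : ℝ, 1 ≤ C ∧ ∀ H : ℕ,
    {c : ℚ | c.den ≤ H ∧ Long c}.Finite ∧
    ({c : ℚ | c.den ≤ H ∧ Long c}.ncard : ℝ) ≤ C * (H : ℝ) ^ (1 / 2 + ε) := by
  obtain ⟨C, hC, h⟩ := long_count hε
  refine ⟨C, hC, ?_⟩
  intro H
  have heq : {c : ℚ | c.den ≤ H ∧ Long c} ⊆
      ⋃ d ∈ Finset.Icc 1 (Nat.sqrt H), {c : ℚ | c.den = d ^ 2 ∧ Long c} := by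
    rintro c ⟨h1, h2⟩
    obtain ⟨d, hd1, hd2, _⟩ := long_mem h2
    simp only [Set.mem_iUnion, Finset.mem_Icc, exists_prop]
    refine ⟨d, ⟨hd1, ?_⟩, hd2, h2⟩
    rw [Nat.le_sqrt, ← sq, ← hd2]
    exact h1
  have hfinU : (⋃ d ∈ Finset.Icc 1 (Nat.sqrt H), {c : ℚ | c.den = d ^ 2 ∧ Long c}).Finite := by
    apply Set.Finite.biUnion (Finset.finite_toSet _)
    intro d hd
    have hd' := Finset.mem_coe.mp hd
    exact (h d (Finset.mem_Icc.mp hd').1).1
  refine ⟨hfinU.subset heq, ?_⟩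
  have hcard : ({c : ℚ | c.den ≤ H ∧ Long c}.ncard : ℝ) ≤
      ∑ d ∈ Finset.Icc 1 (Nat.sqrt H), ({c : ℚ | c.den = d ^ 2 ∧ Long c}.ncard : ℝ) := by
    have h1 : {c : ℚ | c.den ≤ H ∧ Long c}.ncard ≤
        ∑ d ∈ Finset.Icc 1 (Nat.sqrt H), {c : ℚ | c.den = d ^ 2 ∧ Long c}.ncard :=
      le_trans (Set.ncard_le_ncard heq hfinU) (Finset.set_ncard_biUnion_le _ _)
    exact_mod_cast h1
  rcases Nat.eq_zero_or_pos H with hH | hH
  · subst hH
    have : Finset.Icc 1 (Nat.sqrt 0) = (∅ : Finset ℕ) := by simp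
    rw [this, Finset.sum_empty] at hcard
    refine le_trans hcard ?_
    positivity
  have hHpos : (0:ℝ) < H := by exact_mod_cast hH
  have hH1 : (1:ℝ) ≤ H := by exact_mod_cast hH
  have hs : ((Nat.sqrt H : ℕ) : ℝ) ≤ (H : ℝ) ^ (1 / 2 : ℝ) := by
    rw [← Real.sqrt_eq_rpow]
    exact Real.nat_sqrt_le_real_sqrt
  calc ({c : ℚ | c.den ≤ H ∧ Long c}.ncard : ℝ)
      ≤ ∑ d ∈ Finset.Icc 1 (Nat.sqrt H), ({c : ℚ | c.den = d ^ 2 ∧ Long c}.ncard : ℝ) := hcard
    _ ≤ ∑ d ∈ Finset.Icc 1 (Nat.sqrt H), C * (H : ℝ) ^ ε := by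
        apply Finset.sum_le_sum
        intro d hd
        obtain ⟨h1, h2⟩ := Finset.mem_Icc.mp hd
        refine le_trans (h d h1).2 ?_
        apply mul_le_mul_of_nonneg_left _ (by linarith)
        have h3 : d ≤ H := le_trans h2 (Nat.sqrt_le_self H)
        exact Real.rpow_le_rpow (by positivity) (by exact_mod_cast h3) hε.le
    _ = ((Nat.sqrt H : ℕ) : ℝ) * (C * (H : ℝ) ^ ε) := by
        rw [Finset.sum_const, Nat.card_Icc, nsmul_eq_mul, Nat.add_sub_cancel]
    _ ≤ (H : ℝ) ^ (1 / 2 : ℝ) * (C * (H : ℝ) ^ ε) :=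
        mul_le_mul_of_nonneg_right hs (by positivity)
    _ = C * (H : ℝ) ^ (1 / 2 + ε) := by
        rw [Real.rpow_add hHpos]; ring

end

section

theorem sum_inv_sq (H : ℕ) (hH : 2 ≤ H) :
    ∑ k ∈ Finset.Icc 2 H, (1 : ℝ) / (k : ℝ) ^ 2 ≤ 3 / 4 - 1 / H := by
  induction H, hH using Nat.le_induction with
  | base =>
    simp only [Finset.Icc_self, Finset.sum_singleton]
    norm_num
  | succ H hH ih =>
    rw [Finset.sum_Icc_succ_top (by omega)]
    have h1 : (0:ℝ) < H := by positivity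
    have h2 : (1 : ℝ) / ((H + 1 : ℕ) : ℝ) ^ 2 ≤ 1 / H - 1 / ((H + 1 : ℕ) : ℝ) := by
      push_cast
      rw [div_sub_div _ _ h1.ne' (by positivity), div_le_div_iff₀ (by positivity) (by positivity)]
      nlinarith
    linarith

/-- at least a quarter of all pairs are coprime -/
theorem coprime_pairs (H : ℕ) :
    (H : ℝ) ^ 2 ≤ 4 * ((((Finset.Ioc 0 H) ×ˢ (Finset.Ioc 0 H)).filter
      (fun p => Nat.Coprime p.1 p.2)).card : ℝ) := by
  set A := (Finset.Ioc 0 H) ×ˢ (Finset.Ioc 0 H) with hA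
  have hAc : A.card = H ^ 2 := by
    rw [hA, Finset.card_product, Nat.card_Ioc, Nat.sub_zero, sq]
  have hsplit := Finset.card_filter_add_card_filter_not (s := A)
    (fun p : ℕ × ℕ => Nat.Coprime p.1 p.2)
  rw [hAc] at hsplit
  have hsub : A.filter (fun p => ¬ Nat.Coprime p.1 p.2) ⊆
      (Finset.Icc 2 H).biUnion (fun k => ((Finset.Ioc 0 H).filter (fun x => k ∣ x)) ×ˢ
        ((Finset.Ioc 0 H).filter (fun x => k ∣ x))) := by
    intro p hp
    rw [Finset.mem_filter, hA, Finset.mem_product] at hp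
    obtain ⟨⟨h1, h2⟩, h3⟩ := hp
    rw [Finset.mem_biUnion]
    refine ⟨Nat.gcd p.1 p.2, ?_, ?_⟩
    · rw [Finset.mem_Icc]
      rw [Finset.mem_Ioc] at h1
      have h4 : Nat.gcd p.1 p.2 ≤ p.1 := Nat.gcd_le_left _ h1.1
      have h5 : 0 < Nat.gcd p.1 p.2 := Nat.gcd_pos_of_pos_left _ h1.1
      have h6 : Nat.gcd p.1 p.2 ≠ 1 := h3
      omega
    · rw [Finset.mem_product, Finset.mem_filter, Finset.mem_filter]
      exact ⟨⟨h1, Nat.gcd_dvd_left _ _⟩, ⟨h2, Nat.gcd_dvd_right _ _⟩⟩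
  have hle : (((A.filter (fun p => ¬ Nat.Coprime p.1 p.2)).card : ℕ) : ℝ) ≤ 3 / 4 * (H : ℝ) ^ 2 := by
    have h1 : (A.filter (fun p => ¬ Nat.Coprime p.1 p.2)).card ≤
        ∑ k ∈ Finset.Icc 2 H, (H / k) ^ 2 := by
      refine le_trans (Finset.card_le_card hsub) (le_trans Finset.card_biUnion_le ?_)
      apply le_of_eq
      apply Finset.sum_congr rfl
      intro k _
      rw [Finset.card_product, Nat.Ioc_filter_dvd_card_eq_div, sq]
    rcases Nat.lt_or_ge H 2 with hH | hH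
    · have h2 : Finset.Icc 2 H = ∅ := Finset.Icc_eq_empty (by omega)
      rw [h2, Finset.sum_empty] at h1
      have h3 : (A.filter (fun p => ¬ Nat.Coprime p.1 p.2)).card = 0 := by omega
      rw [h3, Nat.cast_zero]
      positivity
    · calc (((A.filter (fun p => ¬ Nat.Coprime p.1 p.2)).card : ℕ) : ℝ)
          ≤ ((∑ k ∈ Finset.Icc 2 H, (H / k) ^ 2 : ℕ) : ℝ) := by exact_mod_cast h1
        _ = ∑ k ∈ Finset.Icc 2 H, (((H / k : ℕ) : ℝ)) ^ 2 := by push_cast; rfl
        _ ≤ ∑ k ∈ Finset.Icc 2 H, (H : ℝ) ^ 2 * (1 / (k : ℝ) ^ 2) := by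
            apply Finset.sum_le_sum
            intro k hk
            have hk2 := (Finset.mem_Icc.mp hk).1
            have hkpos : (0:ℝ) < k := by positivity
            have h4 : ((H / k : ℕ) : ℝ) ≤ (H : ℝ) / k := Nat.cast_div_le
            calc (((H / k : ℕ) : ℝ)) ^ 2 ≤ ((H : ℝ) / k) ^ 2 :=
                  pow_le_pow_left₀ (by positivity) h4 2
              _ = _ := by rw [div_pow]; ring
        _ = (H : ℝ) ^ 2 * ∑ k ∈ Finset.Icc 2 H, (1 / (k : ℝ) ^ 2) := by rw [Finset.mul_sum]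
        _ ≤ (H : ℝ) ^ 2 * (3 / 4) := by
            apply mul_le_mul_of_nonneg_left _ (by positivity)
            have := sum_inv_sq H hH
            have h5 : (0:ℝ) ≤ 1 / H := by positivity
            linarith
        _ = _ := by ring
  have hsplit' : (((A.filter (fun p => Nat.Coprime p.1 p.2)).card : ℕ) : ℝ) +
      (((A.filter (fun p => ¬ Nat.Coprime p.1 p.2)).card : ℕ) : ℝ) = (H : ℝ) ^ 2 := by
    exact_mod_cast hsplit
  linarith

/-- the rational numbers of height at most `H` for which `x ^ 2 + c` has a rational periodic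
point -/
def Per (H : ℕ) : Set ℚ :=
  {c : ℚ | c.num.natAbs ≤ H ∧ c.den ≤ H ∧ (Function.periodicPts (f c)).Nonempty}

theorem per_finite (H : ℕ) : (Per H).Finite := by
  apply Set.Finite.subset (Set.Finite.image (fun p : ℤ × ℤ => ((p.1 : ℚ) / (p.2 : ℚ)))
    (Set.Finite.prod (Set.finite_Icc (-(H : ℤ)) H) (Set.finite_Icc (0 : ℤ) H)))
  rintro b ⟨h1, h2, _⟩
  refine ⟨(b.num, (b.den : ℤ)), ⟨?_, ?_⟩, ?_⟩
  · simp only [Set.mem_Icc]
    omega
  · simp only [Set.mem_Icc]
    omega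
  · simp only
    push_cast
    exact Rat.num_div_den b

theorem per_mono {H H' : ℕ} (h : H ≤ H') : Per H ⊆ Per H' := by
  rintro c ⟨h1, h2, h3⟩
  exact ⟨le_trans h1 h, le_trans h2 h, h3⟩

theorem per_lower (L : ℕ) : (L : ℝ) ^ 2 ≤ 4 * ((Per (4 * L ^ 2)).ncard : ℝ) := by
  refine le_trans (coprime_pairs L) ?_
  apply mul_le_mul_of_nonneg_left _ (by norm_num)
  set T := ((Finset.Ioc 0 L) ×ˢ (Finset.Ioc 0 L)).filter (fun p => Nat.Coprime p.1 p.2) with hT
  have hT' : ∀ p ∈ T, 0 < p.1 ∧ p.1 ≤ L ∧ 0 < p.2 ∧ p.2 ≤ L ∧ Nat.Coprime p.1 p.2 := by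
    intro p hp
    rw [hT, Finset.mem_filter, Finset.mem_product, Finset.mem_Ioc, Finset.mem_Ioc] at hp
    obtain ⟨⟨h1, h2⟩, h3⟩ := hp
    exact ⟨h1.1, h1.2, h2.1, h2.2, h3⟩
  let φ : ℕ × ℕ → ℚ := fun p => 1 / 4 - ((p.1 : ℚ) / (p.2 : ℚ)) ^ 2
  have hinj : Set.InjOn φ (T : Set (ℕ × ℕ)) := by
    intro p hp q hq hpq
    obtain ⟨a1, a2, a3, a4, a5⟩ := hT' p (Finset.mem_coe.mp hp)
    obtain ⟨c1, c2, c3, c4, c5⟩ := hT' q (Finset.mem_coe.mp hq)
    have hp2 : (p.2 : ℚ) ≠ 0 := by positivity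
    have hq2 : (q.2 : ℚ) ≠ 0 := by positivity
    have h1 : ((p.1 : ℚ) / p.2) ^ 2 = ((q.1 : ℚ) / q.2) ^ 2 := by
      simp only [φ] at hpq
      linarith
    have h2 : (p.1 : ℚ) / p.2 = (q.1 : ℚ) / q.2 := by
      have h3 : (0:ℚ) ≤ (p.1 : ℚ) / p.2 := by positivity
      have h4 : (0:ℚ) ≤ (q.1 : ℚ) / q.2 := by positivity
      exact (pow_left_inj₀ h3 h4 (by norm_num)).mp h1
    rw [div_eq_div_iff hp2 hq2] at h2
    have h3 : p.1 * q.2 = q.1 * p.2 := by exact_mod_cast h2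
    have h4 : p.1 ∣ q.1 := a5.dvd_of_dvd_mul_right ⟨q.2, h3.symm⟩
    have h5 : q.1 ∣ p.1 := c5.dvd_of_dvd_mul_right ⟨p.2, h3⟩
    have h6 : p.1 = q.1 := Nat.dvd_antisymm h4 h5
    apply Prod.ext h6
    rw [h6] at h3
    exact (Nat.eq_of_mul_eq_mul_left c1 h3).symm
  have h1 : (T.image φ).card = T.card := Finset.card_image_of_injOn hinj
  have h2 : ((T.image φ : Finset ℚ) : Set ℚ) ⊆ Per (4 * L ^ 2) := by
    intro b hb
    rw [Finset.mem_coe, Finset.mem_image] at hb
    obtain ⟨p, hp, rfl⟩ := hb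
    obtain ⟨a1, a2, a3, a4, a5⟩ := hT' p hp
    have hp2 : (p.2 : ℚ) ≠ 0 := by positivity
    have e : φ p = (((p.2 : ℤ) ^ 2 - 4 * (p.1 : ℤ) ^ 2 : ℤ) : ℚ) / ((4 * (p.2 : ℤ) ^ 2 : ℤ) : ℚ) := by
      simp only [φ]
      push_cast
      field_simp
    have hden0 : (4 * (p.2 : ℤ) ^ 2) ≠ 0 := by positivity
    have b1 : p.1 ^ 2 ≤ L ^ 2 := Nat.pow_le_pow_left a2 2
    have b2 : p.2 ^ 2 ≤ L ^ 2 := Nat.pow_le_pow_left a4 2
    have b3 : ((p.1 : ℤ)) ^ 2 ≤ (L : ℤ) ^ 2 := by exact_mod_cast b1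
    have b4 : ((p.2 : ℤ)) ^ 2 ≤ (L : ℤ) ^ 2 := by exact_mod_cast b2
    have b5 : (0:ℤ) ≤ (p.1 : ℤ) ^ 2 := by positivity
    have b6 : (0:ℤ) ≤ (p.2 : ℤ) ^ 2 := by positivity
    refine ⟨?_, ?_, ?_⟩
    · rw [e, ← Rat.divInt_eq_div]
      have h3 := Rat.num_dvd ((p.2 : ℤ) ^ 2 - 4 * (p.1 : ℤ) ^ 2) hden0
      by_cases h0 : ((p.2 : ℤ) ^ 2 - 4 * (p.1 : ℤ) ^ 2) = 0
      · rw [h0]; simp
      · have h4 := Int.natAbs_dvd_natAbs.mpr h3
        have h5 := Nat.le_of_dvd (Int.natAbs_pos.mpr h0) h4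
        refine le_trans h5 ?_
        zify
        rw [abs_le]
        constructor <;> linarith
    · rw [e, ← Rat.divInt_eq_div]
      have h3 := Rat.den_dvd ((p.2 : ℤ) ^ 2 - 4 * (p.1 : ℤ) ^ 2) (4 * (p.2 : ℤ) ^ 2)
      have h4 := Int.le_of_dvd (by positivity) h3
      zify
      linarith
    · refine ⟨1 / 2 + (p.1 : ℚ) / p.2, 1, by norm_num, ?_⟩
      show f (φ p) (1 / 2 + (p.1 : ℚ) / p.2) = 1 / 2 + (p.1 : ℚ) / p.2
      simp only [f, φ]
      ring
  have h3 : T.card ≤ (Per (4 * L ^ 2)).ncard := by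
    calc T.card = (T.image φ).card := h1.symm
      _ = ((T.image φ : Finset ℚ) : Set ℚ).ncard := (Set.ncard_coe_finset _).symm
      _ ≤ _ := Set.ncard_le_ncard h2 (per_finite _)
  exact_mod_cast h3

theorem per_lower' {H : ℕ} (hH : 64 ≤ H) : (H : ℝ) ≤ 28 * ((Per H).ncard : ℝ) := by
  set L := Nat.sqrt (H / 4) with hL
  have h1 : 4 * L ^ 2 ≤ H := by
    have := Nat.sqrt_le' (H / 4)
    rw [← hL] at this
    omega
  have h2 : H < 4 * (L + 1) ^ 2 := by
    have := Nat.lt_succ_sqrt' (H / 4)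
    rw [← hL, Nat.succ_eq_add_one] at this
    omega
  have h3 : 4 ≤ L := by
    rw [hL, Nat.le_sqrt]
    omega
  have h4 : H ≤ 7 * L ^ 2 := by nlinarith
  have h5 : (H : ℝ) ≤ 7 * (L : ℝ) ^ 2 := by exact_mod_cast h4
  have h6 := per_lower L
  have h7 : ((Per (4 * L ^ 2)).ncard : ℝ) ≤ ((Per H).ncard : ℝ) := by
    exact_mod_cast Set.ncard_le_ncard (per_mono h1) (per_finite H)
  linarith

theorem rel_density : Filter.Tendsto
    (fun H : ℕ => ((Per H ∩ {c : ℚ | Long c}).ncard : ℝ) / ((Per H).ncard : ℝ))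
    Filter.atTop (nhds 0) := by
  obtain ⟨C, hC, h⟩ := long_total (ε := 1 / 4) (by norm_num)
  have hlim : Filter.Tendsto (fun H : ℕ => (28 * C) * ((H : ℝ) ^ (-(1 / 4 : ℝ)))) Filter.atTop
      (nhds 0) := by
    have h1 := (tendsto_rpow_neg_atTop (y := (1 / 4 : ℝ)) (by norm_num)).comp
      (tendsto_natCast_atTop_atTop (R := ℝ))
    have h2 := h1.const_mul (28 * C)
    rw [mul_zero] at h2
    exact h2
  refine squeeze_zero' (Filter.Eventually.of_forall (fun H => by positivity)) ?_ hlim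
  filter_upwards [Filter.eventually_ge_atTop 64] with H hH
  have hHpos : (0:ℝ) < H := by
    have : 0 < H := by omega
    exact_mod_cast this
  have hb := per_lower' hH
  have hbpos : (0:ℝ) < ((Per H).ncard : ℝ) := by linarith
  rw [div_le_iff₀ hbpos]
  have h1 : ((Per H ∩ {c : ℚ | Long c}).ncard : ℝ) ≤ C * (H : ℝ) ^ (1 / 2 + 1 / 4 : ℝ) := by
    refine le_trans ?_ (h H).2
    have : (Per H ∩ {c : ℚ | Long c}).ncard ≤ {c : ℚ | c.den ≤ H ∧ Long c}.ncard := by
      apply Set.ncard_le_ncard _ (h H).1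
      rintro c ⟨⟨_, h2, _⟩, h3⟩
      exact ⟨h2, h3⟩
    exact_mod_cast this
  have h2 : C * (H : ℝ) ^ (1 / 2 + 1 / 4 : ℝ) = (C * (H : ℝ) ^ (-(1 / 4 : ℝ))) * (H : ℝ) := by
    have e : (C * (H : ℝ) ^ (-(1 / 4 : ℝ))) * (H : ℝ) =
        C * ((H : ℝ) ^ (-(1 / 4 : ℝ)) * (H : ℝ) ^ (1 : ℝ)) := by
      rw [Real.rpow_one]; ring
    rw [e, ← Real.rpow_add hHpos]
    norm_num
  rw [h2] at h1
  have h3 : (0:ℝ) ≤ C * (H : ℝ) ^ (-(1 / 4 : ℝ)) := by positivity
  calc ((Per H ∩ {c : ℚ | Long c}).ncard : ℝ)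
      ≤ (C * (H : ℝ) ^ (-(1 / 4 : ℝ))) * (H : ℝ) := h1
    _ ≤ (C * (H : ℝ) ^ (-(1 / 4 : ℝ))) * (28 * ((Per H).ncard : ℝ)) :=
        mul_le_mul_of_nonneg_left hb h3
    _ = _ := by ring

theorem main :
    (∀ c : ℚ, 9 ≤ |c| → (c.den : ℚ) ≤ |c| → ∀ x ∈ Function.periodicPts (f c),
      Function.minimalPeriod (f c) x ≤ 2) ∧
    (∀ ε : ℝ, 0 < ε → ∃ C : ℝ, ∀ d : ℕ, 1 ≤ d →
      {c : ℚ | c.den = d ^ 2 ∧ Long c}.Finite ∧
      ({c : ℚ | c.den = d ^ 2 ∧ Long c}.ncard : ℝ) ≤ C * (d : ℝ) ^ ε) ∧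
    (∀ ε : ℝ, 0 < ε → ∃ C : ℝ, ∀ H : ℕ,
      {c : ℚ | c.den ≤ H ∧ Long c}.Finite ∧
      ({c : ℚ | c.den ≤ H ∧ Long c}.ncard : ℝ) ≤ C * (H : ℝ) ^ (1 / 2 + ε)) ∧
    Filter.Tendsto (fun H : ℕ => ((Per H ∩ {c : ℚ | Long c}).ncard : ℝ) / ((Per H).ncard : ℝ))
      Filter.atTop (nhds 0) := by
  refine ⟨?_, ?_, ?_, rel_density⟩
  · intro c h9 hden x hx
    by_contra hcon
    exact long_size h9 hden ⟨x, hx, by omega⟩
  · intro ε hε
    obtain ⟨C, _, h⟩ := long_count hε
    exact ⟨C, h⟩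
  · intro ε hε
    obtain ⟨C, _, h⟩ := long_total hε
    exact ⟨C, h⟩

end

theorem result :
    (∀ c : ℚ, 9 ≤ |c| → (c.den : ℚ) ≤ |c| → ∀ x ∈ Function.periodicPts (f c),
      Function.minimalPeriod (f c) x ≤ 2) ∧
    (∀ ε : ℝ, 0 < ε → ∃ C : ℝ, ∀ d : ℕ, 1 ≤ d →
      {c : ℚ | c.den = d ^ 2 ∧ Long c}.Finite ∧
      ({c : ℚ | c.den = d ^ 2 ∧ Long c}.ncard : ℝ) ≤ C * (d : ℝ) ^ ε) ∧
    (∀ ε : ℝ, 0 < ε → ∃ C : ℝ, ∀ H : ℕ,
      {c : ℚ | c.den ≤ H ∧ Long c}.Finite ∧
      ({c : ℚ | c.den ≤ H ∧ Long c}.ncard : ℝ) ≤ C * (H : ℝ) ^ (1 / 2 + ε)) ∧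
    Filter.Tendsto (fun H : ℕ => ((Per H ∩ {c : ℚ | Long c}).ncard : ℝ) / ((Per H).ncard : ℝ))
      Filter.atTop (nhds 0) :=
  main

end Pool.Agent.Results.MP_7564fc_nt.FewLongCycles
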